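import Pool.Agent.H1.LD.Gau1
import Pool.Agent.H48.R7.Defs

/-!
Gaussian cosine and sine integrals.
-/

set_option autoImplicit false

open MeasureTheory Filter Topology Metric Set
open scoped RealInnerProductSpace ENNReal

namespace Pool.Agent.H53.CGG

open Pool.Agent.RZ Pool.Agent.H1.LD Pool.Agent.H48.R7

variable {d : ℕ}

/-- continuous functions of polynomial growth, times a Gaussian, are integrable -/
theorem int_poly {b : ℝ} (hb : 0 < b) {f : X d → ℝ} (hf : Continuous f) {C : ℝ} {m : ℕ}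
    (hC : ∀ u, |f u| ≤ C * (1 + ‖u‖) ^ m) : Integrable fun u : X d => ga b u * f u := by
  refine ((ga_integrable (d := d) hb m).const_mul C).mono' ((ga_continuous b).mul hf).aestronglyMeasurable
    (Eventually.of_forall fun u => ?_)
  rw [Real.norm_eq_abs, abs_mul, abs_of_nonneg (ga_nonneg b u)]
  calc ga b u * |f u| ≤ ga b u * (C * (1 + ‖u‖) ^ m) := mul_le_mul_of_nonneg_left (hC u) (ga_nonneg b u)
    _ = C * ((1 + ‖u‖) ^ m * ga b u) := by ring

/-- (G1) -/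
theorem gau_cos {b : ℝ} (hb : 0 < b) (e : X d) :
    ∫ u : X d, ga b u * Real.cos ⟪u, e⟫ = gc d b * Real.exp (-(‖e‖ ^ 2 / (4 * b))) := by
  have hb' : 0 < ((b : ℂ)).re := by simpa using hb
  have h0 := GaussianFourier.integral_cexp_neg_mul_sq_norm_add (V := X d) hb' 0 0
  have h1 := GaussianFourier.integral_cexp_neg_mul_sq_norm_add (V := X d) hb' Complex.I e
  have i1 := GaussianFourier.integrable_cexp_neg_mul_sq_norm_add (V := X d) hb' Complex.I e
  have e0 : ∀ v : X d, Complex.exp (-(b : ℂ) * (‖v‖ : ℂ) ^ 2 + 0 * ((⟪(0 : X d), v⟫ : ℝ) : ℂ)) =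
      ((ga b v : ℝ) : ℂ) := by
    intro v
    unfold ga
    rw [Complex.ofReal_exp]
    congr 1
    push_cast
    ring
  have h2 : ((gc d b : ℝ) : ℂ) = (Real.pi / (b : ℂ)) ^ ((Module.finrank ℝ (X d) : ℂ) / 2) := by
    simp_rw [e0] at h0
    rw [integral_complex_ofReal] at h0
    unfold gc
    rw [h0]
    simp
  have h3 : ∀ v : X d, (Complex.exp (-(b : ℂ) * (‖v‖ : ℂ) ^ 2 + Complex.I * ((⟪e, v⟫ : ℝ) : ℂ))).re =
      ga b v * Real.cos ⟪v, e⟫ := by
    intro v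
    rw [Complex.exp_add, show -(b : ℂ) * (‖v‖ : ℂ) ^ 2 = ((-(b * ‖v‖ ^ 2) : ℝ) : ℂ) by push_cast; ring,
      ← Complex.ofReal_exp, Complex.re_ofReal_mul, mul_comm Complex.I, Complex.exp_ofReal_mul_I_re,
      real_inner_comm]
    rfl
  have h4 : ∫ u : X d, ga b u * Real.cos ⟪u, e⟫ =
      (∫ v : X d, Complex.exp (-(b : ℂ) * (‖v‖ : ℂ) ^ 2 + Complex.I * ((⟪e, v⟫ : ℝ) : ℂ))).re := by
    have := (Complex.reCLM.integral_comp_comm i1).symm
    simp only [Complex.reCLM_apply] at this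
    rw [this]
    exact integral_congr_ae (Eventually.of_forall fun v => (h3 v).symm)
  rw [h4, h1, ← h2, show Complex.I ^ 2 * (‖e‖ : ℂ) ^ 2 / (4 * (b : ℂ)) =
    ((-(‖e‖ ^ 2 / (4 * b)) : ℝ) : ℂ) by rw [Complex.I_sq]; push_cast; ring, ← Complex.ofReal_exp,
    ← Complex.ofReal_mul, Complex.ofReal_re]

/-- derivative of a cosine integral in the frequency -/
theorem deriv_cos {b : ℝ} (hb : 0 < b) {f : X d → ℝ} (hf : Continuous f) {C : ℝ} {m : ℕ}
    (hC : ∀ u, |f u| ≤ C * (1 + ‖u‖) ^ m) (e v : X d) :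
    HasDerivAt (fun s : ℝ => ∫ u : X d, ga b u * (f u * Real.cos ⟪u, e + s • v⟫))
      (-∫ u : X d, ga b u * (f u * (⟪u, v⟫ * Real.sin ⟪u, e⟫))) 0 := by
  have hC0 : 0 ≤ C := by
    have := (abs_nonneg _).trans (hC 0)
    simpa using this
  rw [← integral_neg]
  have key := hasDerivAt_integral_of_dominated_loc_of_deriv_le (μ := (volume : Measure (X d)))
    (F := fun (s : ℝ) (u : X d) => ga b u * (f u * Real.cos ⟪u, e + s • v⟫))
    (F' := fun (s : ℝ) (u : X d) => -(ga b u * (f u * (⟪u, v⟫ * Real.sin ⟪u, e + s • v⟫))))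
    (x₀ := 0) (s := Set.univ) (bound := fun u => (C * ‖v‖) * ((1 + ‖u‖) ^ (m + 1) * ga b u))
    univ_mem ?_ ?_ ?_ ?_ ?_ ?_
  · have h := key.2
    simpa using h
  · refine Eventually.of_forall fun s => ?_
    exact ((ga_continuous b).mul (hf.mul (Real.continuous_cos.comp
      (continuous_id.inner continuous_const)))).aestronglyMeasurable
  · refine int_poly hb (hf.mul (Real.continuous_cos.comp (continuous_id.inner continuous_const)))
      (C := C) (m := m) fun u => ?_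
    rw [abs_mul]
    calc |f u| * |Real.cos ⟪u, e + (0 : ℝ) • v⟫| ≤ |f u| * 1 :=
          mul_le_mul_of_nonneg_left (Real.abs_cos_le_one _) (abs_nonneg _)
      _ ≤ _ := by rw [mul_one]; exact hC u
  · exact (((ga_continuous b).mul (hf.mul ((continuous_id.inner continuous_const).mul
      (Real.continuous_sin.comp (continuous_id.inner continuous_const)))))).neg.aestronglyMeasurable
  · refine Eventually.of_forall fun u s _ => ?_
    rw [norm_neg, Real.norm_eq_abs, abs_mul, abs_mul, abs_mul, abs_of_nonneg (ga_nonneg b u)]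
    have h1 : |f u| * (|⟪u, v⟫| * |Real.sin ⟪u, e + s • v⟫|) ≤
        (C * (1 + ‖u‖) ^ m) * (((1 + ‖u‖) * ‖v‖) * 1) := by
      refine mul_le_mul (hC u) ?_ (by positivity) (by positivity)
      refine mul_le_mul ?_ (Real.abs_sin_le_one _) (abs_nonneg _) (by positivity)
      refine (abs_real_inner_le_norm u v).trans ?_
      exact mul_le_mul_of_nonneg_right (by linarith) (norm_nonneg _)
    calc ga b u * (|f u| * (|⟪u, v⟫| * |Real.sin ⟪u, e + s • v⟫|))
        ≤ ga b u * ((C * (1 + ‖u‖) ^ m) * (((1 + ‖u‖) * ‖v‖) * 1)) :=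
          mul_le_mul_of_nonneg_left h1 (ga_nonneg b u)
      _ = _ := by ring
  · exact (ga_integrable hb (m + 1)).const_mul _
  · refine Eventually.of_forall fun u s _ => ?_
    have h1 : HasDerivAt (fun s : ℝ => ⟪u, e + s • v⟫) ⟪u, v⟫ s := by
      have h2 : (fun s : ℝ => ⟪u, e + s • v⟫) = fun s : ℝ => ⟪u, e⟫ + s * ⟪u, v⟫ := by
        funext s
        rw [inner_add_right, real_inner_smul_right]
      rw [h2]
      simpa using ((hasDerivAt_id s).mul_const ⟪u, v⟫).const_add ⟪u, e⟫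
    have h3 := ((h1.cos).const_mul (f u)).const_mul (ga b u)
    refine h3.congr_deriv ?_
    ring

/-- derivative of a sine integral in the frequency -/
theorem deriv_sin {b : ℝ} (hb : 0 < b) {f : X d → ℝ} (hf : Continuous f) {C : ℝ} {m : ℕ}
    (hC : ∀ u, |f u| ≤ C * (1 + ‖u‖) ^ m) (e v : X d) :
    HasDerivAt (fun s : ℝ => ∫ u : X d, ga b u * (f u * Real.sin ⟪u, e + s • v⟫))
      (∫ u : X d, ga b u * (f u * (⟪u, v⟫ * Real.cos ⟪u, e⟫))) 0 := by
  have hC0 : 0 ≤ C := by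
    have := (abs_nonneg _).trans (hC 0)
    simpa using this
  have key := hasDerivAt_integral_of_dominated_loc_of_deriv_le (μ := (volume : Measure (X d)))
    (F := fun (s : ℝ) (u : X d) => ga b u * (f u * Real.sin ⟪u, e + s • v⟫))
    (F' := fun (s : ℝ) (u : X d) => ga b u * (f u * (⟪u, v⟫ * Real.cos ⟪u, e + s • v⟫)))
    (x₀ := 0) (s := Set.univ) (bound := fun u => (C * ‖v‖) * ((1 + ‖u‖) ^ (m + 1) * ga b u))
    univ_mem ?_ ?_ ?_ ?_ ?_ ?_
  · have h := key.2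
    simpa using h
  · refine Eventually.of_forall fun s => ?_
    exact ((ga_continuous b).mul (hf.mul (Real.continuous_sin.comp
      (continuous_id.inner continuous_const)))).aestronglyMeasurable
  · refine int_poly hb (hf.mul (Real.continuous_sin.comp (continuous_id.inner continuous_const)))
      (C := C) (m := m) fun u => ?_
    rw [abs_mul]
    calc |f u| * |Real.sin ⟪u, e + (0 : ℝ) • v⟫| ≤ |f u| * 1 :=
          mul_le_mul_of_nonneg_left (Real.abs_sin_le_one _) (abs_nonneg _)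
      _ ≤ _ := by rw [mul_one]; exact hC u
  · exact (((ga_continuous b).mul (hf.mul ((continuous_id.inner continuous_const).mul
      (Real.continuous_cos.comp (continuous_id.inner continuous_const)))))).aestronglyMeasurable
  · refine Eventually.of_forall fun u s _ => ?_
    rw [Real.norm_eq_abs, abs_mul, abs_mul, abs_mul, abs_of_nonneg (ga_nonneg b u)]
    have h1 : |f u| * (|⟪u, v⟫| * |Real.cos ⟪u, e + s • v⟫|) ≤
        (C * (1 + ‖u‖) ^ m) * (((1 + ‖u‖) * ‖v‖) * 1) := by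
      refine mul_le_mul (hC u) ?_ (by positivity) (by positivity)
      refine mul_le_mul ?_ (Real.abs_cos_le_one _) (abs_nonneg _) (by positivity)
      refine (abs_real_inner_le_norm u v).trans ?_
      exact mul_le_mul_of_nonneg_right (by linarith) (norm_nonneg _)
    calc ga b u * (|f u| * (|⟪u, v⟫| * |Real.cos ⟪u, e + s • v⟫|))
        ≤ ga b u * ((C * (1 + ‖u‖) ^ m) * (((1 + ‖u‖) * ‖v‖) * 1)) :=
          mul_le_mul_of_nonneg_left h1 (ga_nonneg b u)
      _ = _ := by ring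
  · exact (ga_integrable hb (m + 1)).const_mul _
  · refine Eventually.of_forall fun u s _ => ?_
    have h1 : HasDerivAt (fun s : ℝ => ⟪u, e + s • v⟫) ⟪u, v⟫ s := by
      have h2 : (fun s : ℝ => ⟪u, e + s • v⟫) = fun s : ℝ => ⟪u, e⟫ + s * ⟪u, v⟫ := by
        funext s
        rw [inner_add_right, real_inner_smul_right]
      rw [h2]
      simpa using ((hasDerivAt_id s).mul_const ⟪u, v⟫).const_add ⟪u, e⟫
    have h3 := ((h1.sin).const_mul (f u)).const_mul (ga b u)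
    refine h3.congr_deriv ?_
    ring

private theorem nsq_deriv (b : ℝ) (e v : X d) :
    HasDerivAt (fun s : ℝ => Real.exp (-(‖e + s • v‖ ^ 2 / (4 * b))))
      (Real.exp (-(‖e‖ ^ 2 / (4 * b))) * (-(2 * ⟪e, v⟫ / (4 * b)))) 0 := by
  have h1 : ∀ s : ℝ, ‖e + s • v‖ ^ 2 = ‖e‖ ^ 2 + s * (2 * ⟪e, v⟫) + s ^ 2 * ‖v‖ ^ 2 := by
    intro s
    rw [norm_add_sq_real, real_inner_smul_right, norm_smul, Real.norm_eq_abs, mul_pow, sq_abs]
    ring
  have h2 : HasDerivAt (fun s : ℝ => ‖e + s • v‖ ^ 2) (2 * ⟪e, v⟫) 0 := by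
    simp_rw [h1]
    have h3 := (((hasDerivAt_id (0 : ℝ)).mul_const (2 * ⟪e, v⟫)).const_add (‖e‖ ^ 2)).fun_add
      (((hasDerivAt_id (0 : ℝ)).pow 2).mul_const (‖v‖ ^ 2))
    simpa using h3
  have h4 := ((h2.div_const (4 * b)).neg).exp
  simpa using h4

/-- (G2) -/
theorem gau_sin {b : ℝ} (hb : 0 < b) (e v : X d) :
    ∫ u : X d, ga b u * (⟪u, v⟫ * Real.sin ⟪u, e⟫) =
      gc d b * (⟪e, v⟫ / (2 * b)) * Real.exp (-(‖e‖ ^ 2 / (4 * b))) := by
  have h1 := deriv_cos (d := d) hb (f := fun _ => (1 : ℝ)) continuous_const (C := 1) (m := 0)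
    (fun u => by simp) e v
  have h2 : HasDerivAt (fun s : ℝ => ∫ u : X d, ga b u * ((1 : ℝ) * Real.cos ⟪u, e + s • v⟫))
      (gc d b * (Real.exp (-(‖e‖ ^ 2 / (4 * b))) * (-(2 * ⟪e, v⟫ / (4 * b))))) 0 := by
    simp_rw [one_mul, gau_cos hb]
    exact (nsq_deriv b e v).const_mul _
  have h3 := h1.unique h2
  simp_rw [one_mul] at h3
  have h4 : ∫ u : X d, ga b u * (⟪u, v⟫ * Real.sin ⟪u, e⟫) =
      -(gc d b * (Real.exp (-(‖e‖ ^ 2 / (4 * b))) * (-(2 * ⟪e, v⟫ / (4 * b))))) := by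
    rw [← h3, neg_neg]
  rw [h4]
  field_simp
  ring

/-- (G3) -/
theorem gau_two {b : ℝ} (hb : 0 < b) (e v w : X d) :
    ∫ u : X d, ga b u * (⟪u, v⟫ * (⟪u, w⟫ * Real.cos ⟪u, e⟫)) =
      gc d b * (⟪v, w⟫ / (2 * b) - ⟪e, v⟫ * ⟪e, w⟫ / (4 * b ^ 2)) *
        Real.exp (-(‖e‖ ^ 2 / (4 * b))) := by
  have h1 := deriv_sin (d := d) hb (f := fun u => ⟪u, v⟫) (continuous_id.inner continuous_const)
    (C := ‖v‖) (m := 1) (fun u => by
      refine (abs_real_inner_le_norm u v).trans ?_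
      rw [mul_comm, pow_one]
      exact mul_le_mul_of_nonneg_left (by linarith) (norm_nonneg _)) e w
  have h2 : HasDerivAt (fun s : ℝ => ∫ u : X d, ga b u * (⟪u, v⟫ * Real.sin ⟪u, e + s • w⟫))
      (gc d b * (⟪w, v⟫ / (2 * b)) * Real.exp (-(‖e‖ ^ 2 / (4 * b))) +
        gc d b * (⟪e, v⟫ / (2 * b)) * (Real.exp (-(‖e‖ ^ 2 / (4 * b))) *
          (-(2 * ⟪e, w⟫ / (4 * b))))) 0 := by
    simp_rw [gau_sin hb]
    have h3 : HasDerivAt (fun s : ℝ => gc d b * (⟪e + s • w, v⟫ / (2 * b)))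
        (gc d b * (⟪w, v⟫ / (2 * b))) 0 := by
      have h4 : (fun s : ℝ => ⟪e + s • w, v⟫) = fun s : ℝ => ⟪e, v⟫ + s * ⟪w, v⟫ := by
        funext s
        rw [inner_add_left, real_inner_smul_left]
      have h5 : HasDerivAt (fun s : ℝ => ⟪e + s • w, v⟫) ⟪w, v⟫ 0 := by
        rw [h4]
        simpa using ((hasDerivAt_id (0 : ℝ)).mul_const ⟪w, v⟫).const_add ⟪e, v⟫
      exact (h5.div_const (2 * b)).const_mul _
    have h6 := h3.fun_mul (nsq_deriv b e w)
    simpa using h6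
  rw [h1.unique h2, real_inner_comm v w]
  field_simp
  ring

/-- (G4) the Gaussian weight of the pair `(a, a')` -/
theorem gau_mta {b : ℝ} (hb : 0 < b) (a a' : X d) :
    ∫ u : X d, ga b u * ((1 + ⟪u, a⟫ * ⟪u, a'⟫) * Real.cos ⟪u, a - a'⟫ -
      ⟪u, a - a'⟫ * Real.sin ⟪u, a - a'⟫) = gc d b * mta 1 a a' (2 * Real.sqrt b) := by
  have hcc : Continuous fun u : X d => Real.cos ⟪u, a - a'⟫ :=
    Real.continuous_cos.comp (continuous_id.inner continuous_const)
  have hcs : Continuous fun u : X d => Real.sin ⟪u, a - a'⟫ :=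
    Real.continuous_sin.comp (continuous_id.inner continuous_const)
  have hin : ∀ w : X d, Continuous fun u : X d => ⟪u, w⟫ := fun w => continuous_id.inner continuous_const
  have i1 : Integrable fun u : X d => ga b u * Real.cos ⟪u, a - a'⟫ :=
    int_poly hb hcc (C := 1) (m := 0) fun u => by simpa using Real.abs_cos_le_one _
  have i2 : Integrable fun u : X d => ga b u * (⟪u, a⟫ * (⟪u, a'⟫ * Real.cos ⟪u, a - a'⟫)) := by
    refine int_poly hb ((hin a).mul ((hin a').mul hcc)) (C := ‖a‖ * ‖a'‖) (m := 2) fun u => ?_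
    rw [abs_mul, abs_mul]
    have h1 := abs_real_inner_le_norm u a
    have h2 := abs_real_inner_le_norm u a'
    have h3 := Real.abs_cos_le_one ⟪u, a - a'⟫
    have h4 : |⟪u, a'⟫| * |Real.cos ⟪u, a - a'⟫| ≤ (‖u‖ * ‖a'‖) * 1 :=
      mul_le_mul h2 h3 (abs_nonneg _) (by positivity)
    calc |⟪u, a⟫| * (|⟪u, a'⟫| * |Real.cos ⟪u, a - a'⟫|) ≤ (‖u‖ * ‖a‖) * ((‖u‖ * ‖a'‖) * 1) :=
          mul_le_mul h1 h4 (by positivity) (by positivity)
      _ = (‖a‖ * ‖a'‖) * ‖u‖ ^ 2 := by ring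
      _ ≤ (‖a‖ * ‖a'‖) * (1 + ‖u‖) ^ 2 :=
          mul_le_mul_of_nonneg_left (pow_le_pow_left₀ (norm_nonneg _) (by linarith) 2) (by positivity)
  have i3 : Integrable fun u : X d => ga b u * (⟪u, a - a'⟫ * Real.sin ⟪u, a - a'⟫) := by
    refine int_poly hb ((hin _).mul hcs) (C := ‖a - a'‖) (m := 1) fun u => ?_
    rw [abs_mul]
    calc |⟪u, a - a'⟫| * |Real.sin ⟪u, a - a'⟫| ≤ (‖u‖ * ‖a - a'‖) * 1 :=
          mul_le_mul (abs_real_inner_le_norm _ _) (Real.abs_sin_le_one _) (abs_nonneg _) (by positivity)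
      _ ≤ ‖a - a'‖ * (1 + ‖u‖) ^ 1 := by nlinarith [norm_nonneg (a - a')]
  have e1 : ∀ u : X d, ga b u * ((1 + ⟪u, a⟫ * ⟪u, a'⟫) * Real.cos ⟪u, a - a'⟫ -
      ⟪u, a - a'⟫ * Real.sin ⟪u, a - a'⟫) = (ga b u * Real.cos ⟪u, a - a'⟫ +
        ga b u * (⟪u, a⟫ * (⟪u, a'⟫ * Real.cos ⟪u, a - a'⟫))) -
        ga b u * (⟪u, a - a'⟫ * Real.sin ⟪u, a - a'⟫) := fun u => by ring
  simp_rw [e1]
  have i12 : Integrable fun u : X d => ga b u * Real.cos ⟪u, a - a'⟫ +
      ga b u * (⟪u, a⟫ * (⟪u, a'⟫ * Real.cos ⟪u, a - a'⟫)) := i1.add i2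
  rw [integral_sub i12 i3, integral_add i1 i2, gau_cos hb, gau_two hb, gau_sin hb]
  unfold mta
  have hs : Real.sqrt b ^ 2 = b := Real.sq_sqrt hb.le
  have hs2 : (2 * Real.sqrt b) ^ 2 = 4 * b := by rw [mul_pow, hs]; norm_num
  have hs4 : (2 * Real.sqrt b) ^ 4 = 16 * b ^ 2 := by
    rw [show (2 * Real.sqrt b) ^ 4 = ((2 * Real.sqrt b) ^ 2) ^ 2 by ring, hs2]; ring
  rw [hs2, hs4, real_inner_self_eq_norm_sq]
  have h5 : ⟪a', a' - a⟫ = -⟪a', a - a'⟫ := by rw [← neg_sub a a', inner_neg_right]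
  have h6 : ⟪a', a - a'⟫ = ⟪a - a', a'⟫ := real_inner_comm _ _
  have h7 : ⟪a, a - a'⟫ = ⟪a - a', a⟫ := real_inner_comm _ _
  rw [h5, h6, h7]
  field_simp
  ring

end Pool.Agent.H53.CGG
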