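import Pool.Agent.H53.CGG.Gau

/-!
A function with the cosine transform `|a|^(2k) exp(-|a|^2/16)`.
-/

set_option autoImplicit false

open MeasureTheory Filter Topology Metric Set
open scoped RealInnerProductSpace ENNReal

namespace Pool.Agent.H53.CGG

open Pool.Agent.RZ Pool.Agent.H1.LD Pool.Agent.H48.R7

variable {d : ℕ}

/-- the moments -/
noncomputable def Tj (j : ℕ) (β : ℝ) (a : X d) : ℝ := ∫ u : X d, ga β u * (‖u‖ ^ (2 * j) * Real.cos ⟪u, a⟫)

/-- the monomials -/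
noncomputable def Fm (p : ℝ) (i : ℕ) (β : ℝ) (a : X d) : ℝ :=
  β ^ (-p) * ‖a‖ ^ (2 * i) * Real.exp (-(‖a‖ ^ 2 / (4 * β)))

theorem Tj_deriv (j : ℕ) {β : ℝ} (hβ : 0 < β) (a : X d) :
    HasDerivAt (fun β : ℝ => Tj j β a) (-Tj (j + 1) β a) β := by
  have hfc : ∀ i : ℕ, Continuous fun u : X d => ‖u‖ ^ (2 * i) * Real.cos ⟪u, a⟫ := fun i =>
    (continuous_norm.pow _).mul (Real.continuous_cos.comp (continuous_id.inner continuous_const))
  have hfb : ∀ i : ℕ, ∀ u : X d, |‖u‖ ^ (2 * i) * Real.cos ⟪u, a⟫| ≤ 1 * (1 + ‖u‖) ^ (2 * i) := by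
    intro i u
    rw [abs_mul, one_mul, abs_of_nonneg (by positivity : (0 : ℝ) ≤ ‖u‖ ^ (2 * i))]
    calc ‖u‖ ^ (2 * i) * |Real.cos ⟪u, a⟫| ≤ ‖u‖ ^ (2 * i) * 1 :=
          mul_le_mul_of_nonneg_left (Real.abs_cos_le_one _) (by positivity)
      _ ≤ (1 + ‖u‖) ^ (2 * i) := by
          rw [mul_one]; exact pow_le_pow_left₀ (norm_nonneg _) (by linarith) _
  have hb2 : 0 < β / 2 := by positivity
  unfold Tj
  rw [← integral_neg]
  have key := hasDerivAt_integral_of_dominated_loc_of_deriv_le (μ := (volume : Measure (X d)))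
    (F := fun (s : ℝ) (u : X d) => ga s u * (‖u‖ ^ (2 * j) * Real.cos ⟪u, a⟫))
    (F' := fun (s : ℝ) (u : X d) => -(ga s u * (‖u‖ ^ (2 * (j + 1)) * Real.cos ⟪u, a⟫)))
    (x₀ := β) (s := Metric.ball β (β / 2))
    (bound := fun u => 1 * ((1 + ‖u‖) ^ (2 * (j + 1)) * ga (β / 2) u))
    (Metric.ball_mem_nhds β hb2) ?_ ?_ ?_ ?_ ?_ ?_
  · exact key.2
  · exact Eventually.of_forall fun s => ((ga_continuous s).mul (hfc j)).aestronglyMeasurable
  · exact int_poly hβ (hfc j) (hfb j)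
  · exact ((ga_continuous β).mul (hfc (j + 1))).neg.aestronglyMeasurable
  · refine Eventually.of_forall fun u s hs => ?_
    have hs' : β / 2 ≤ s := by
      rw [Metric.mem_ball, Real.dist_eq] at hs
      linarith [neg_abs_le (s - β)]
    rw [norm_neg, Real.norm_eq_abs, abs_mul, abs_of_nonneg (ga_nonneg s u)]
    calc ga s u * |‖u‖ ^ (2 * (j + 1)) * Real.cos ⟪u, a⟫|
        ≤ ga (β / 2) u * (1 * (1 + ‖u‖) ^ (2 * (j + 1))) :=
          mul_le_mul (ga_anti hs' u) (hfb (j + 1) u) (abs_nonneg _) (ga_nonneg _ _)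
      _ = _ := by ring
  · exact (ga_integrable hb2 _).const_mul _
  · refine Eventually.of_forall fun u s _ => ?_
    have h1 : HasDerivAt (fun s : ℝ => ga s u) (-(‖u‖ ^ 2) * ga s u) s := by
      unfold ga
      have h2 : HasDerivAt (fun s : ℝ => -(s * ‖u‖ ^ 2)) (-(‖u‖ ^ 2)) s := by
        simpa using ((hasDerivAt_id s).mul_const (‖u‖ ^ 2)).fun_neg
      have h3 := h2.exp
      refine h3.congr_deriv ?_
      ring
    have h4 := h1.mul_const (‖u‖ ^ (2 * j) * Real.cos ⟪u, a⟫)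
    refine h4.congr_deriv ?_
    ring

theorem Fm_deriv (p : ℝ) (i : ℕ) {β : ℝ} (hβ : 0 < β) (a : X d) :
    HasDerivAt (fun β : ℝ => Fm p i β a)
      (-(p * Fm (p + 1) i β a - 1 / 4 * Fm (p + 2) (i + 1) β a)) β := by
  unfold Fm
  have h1 : HasDerivAt (fun β : ℝ => β ^ (-p)) (-p * β ^ (-p - 1)) β :=
    Real.hasDerivAt_rpow_const (Or.inl hβ.ne')
  have h2 : HasDerivAt (fun β : ℝ => -(‖a‖ ^ 2 / (4 * β))) (‖a‖ ^ 2 / (4 * β ^ 2)) β := by
    have h3 : HasDerivAt (fun β : ℝ => (4 * β)⁻¹) (-(4 * 1) / (4 * β) ^ 2) β :=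
      ((hasDerivAt_id β).const_mul 4).fun_inv (by positivity)
    have h4 := (h3.const_mul (‖a‖ ^ 2)).neg
    refine (h4.congr_deriv ?_)
    field_simp
  have h5 := (h1.mul_const (‖a‖ ^ (2 * i))).fun_mul h2.exp
  refine h5.congr_deriv ?_
  have e1 : β ^ (-p - 1) = β ^ (-(p + 1)) := by congr 1; ring
  have e2 : β ^ (-p) = β ^ (-(p + 2)) * β ^ 2 := by
    rw [← Real.rpow_natCast β 2, ← Real.rpow_add hβ]
    congr 1
    push_cast
    ring
  rw [e1, e2]
  field_simp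
  ring

theorem Tj_formula (d : ℕ) (j : ℕ) : ∃ c : ℕ → ℝ, c j ≠ 0 ∧ (∀ i, j < i → c i = 0) ∧
    ∀ β : ℝ, 0 < β → ∀ a : X d, Tj j β a =
      ∑ i ∈ Finset.range (j + 1), c i * Fm ((d : ℝ) / 2 + j + i) i β a := by
  induction j with
  | zero =>
    refine ⟨fun i => if i = 0 then Real.pi ^ ((d : ℝ) / 2) else 0, ?_, ?_, ?_⟩
    · simp only [if_true]
      positivity
    · intro i hi
      exact if_neg (by omega)
    · intro β hβ a
      unfold Tj Fm
      simp only [Nat.mul_zero, pow_zero, one_mul, Finset.range_one, Finset.sum_singleton, if_true,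
        mul_one, Nat.cast_zero, add_zero]
      have h1 := gau_cos (d := d) hβ a
      simp only [zero_add, Finset.range_one, Finset.sum_singleton, if_true, Nat.mul_zero, pow_zero,
        mul_one, Nat.cast_zero, add_zero]
      rw [h1]
      have h2 : gc d β = (Real.pi / β) ^ ((d : ℝ) / 2) := by
        have h3 := GaussianFourier.integral_rexp_neg_mul_sq_norm (V := X d) hβ
        rw [finrank_euclideanSpace_fin] at h3
        rw [← h3]
        unfold gc ga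
        simp only [neg_mul]
      rw [h2, Real.div_rpow Real.pi_pos.le hβ.le, Real.rpow_neg hβ.le]
      ring
  | succ j ih =>
    obtain ⟨c, hc, hc0, hT⟩ := ih
    refine ⟨fun i => c i * ((d : ℝ) / 2 + j + i) - 1 / 4 * (if i = 0 then 0 else c (i - 1)), ?_, ?_, ?_⟩
    · simp only [hc0 (j + 1) (by omega), zero_mul, zero_sub, Nat.add_sub_cancel]
      rw [if_neg (by omega)]
      exact neg_ne_zero.2 (mul_ne_zero (by norm_num) hc)
    · intro i hi
      simp only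
      rw [hc0 i (by omega), if_neg (by omega), hc0 (i - 1) (by omega)]
      ring
    · intro β hβ a
      have h1 := Tj_deriv (d := d) j hβ a
      have h2 : HasDerivAt (fun β : ℝ => Tj j β a)
          (∑ i ∈ Finset.range (j + 1), c i * (-(((d : ℝ) / 2 + j + i) * Fm ((d : ℝ) / 2 + j + i + 1) i β a
            - 1 / 4 * Fm ((d : ℝ) / 2 + j + i + 2) (i + 1) β a))) β := by
        have h3 : HasDerivAt (fun β : ℝ => ∑ i ∈ Finset.range (j + 1), c i * Fm ((d : ℝ) / 2 + j + i) i β a)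
            (∑ i ∈ Finset.range (j + 1), c i * (-(((d : ℝ) / 2 + j + i) * Fm ((d : ℝ) / 2 + j + i + 1) i β a
            - 1 / 4 * Fm ((d : ℝ) / 2 + j + i + 2) (i + 1) β a))) β :=
          HasDerivAt.fun_sum fun i _ => (Fm_deriv _ i hβ a).const_mul _
        refine h3.congr_of_eventuallyEq ?_
        filter_upwards [lt_mem_nhds hβ] with b hb
        exact hT b hb a
      have h4 : Tj (j + 1) β a = -(∑ i ∈ Finset.range (j + 1), c i * (-(((d : ℝ) / 2 + j + i) *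
          Fm ((d : ℝ) / 2 + j + i + 1) i β a - 1 / 4 * Fm ((d : ℝ) / 2 + j + i + 2) (i + 1) β a))) := by
        rw [← h1.unique h2, neg_neg]
      rw [h4, ← Finset.sum_neg_distrib]
      simp only [sub_mul, Finset.sum_sub_distrib]
      have e1 : ∑ i ∈ Finset.range (j + 1 + 1), c i * ((d : ℝ) / 2 + j + i) *
          Fm ((d : ℝ) / 2 + ((j + 1 : ℕ) : ℝ) + i) i β a =
          ∑ i ∈ Finset.range (j + 1), c i * ((d : ℝ) / 2 + j + i) * Fm ((d : ℝ) / 2 + j + i + 1) i β a := by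
        rw [Finset.sum_range_succ, hc0 (j + 1) (by omega), zero_mul, zero_mul, add_zero]
        refine Finset.sum_congr rfl fun i _ => ?_
        congr 2
        push_cast
        ring
      have e2 : ∑ i ∈ Finset.range (j + 1 + 1), 1 / 4 * (if i = 0 then 0 else c (i - 1)) *
          Fm ((d : ℝ) / 2 + ((j + 1 : ℕ) : ℝ) + i) i β a =
          ∑ i ∈ Finset.range (j + 1), 1 / 4 * c i * Fm ((d : ℝ) / 2 + j + i + 2) (i + 1) β a := by
        rw [Finset.sum_range_succ', if_pos rfl, mul_zero, zero_mul, add_zero]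
        refine Finset.sum_congr rfl fun i _ => ?_
        rw [if_neg (by omega), Nat.add_sub_cancel]
        congr 2
        push_cast
        ring
      rw [e1, e2, ← Finset.sum_sub_distrib]
      refine Finset.sum_congr rfl fun i _ => ?_
      ring

/-- cosine transforms of even functions of Gaussian decay -/
def Rep (g : X d → ℝ) : Prop :=
  ∃ V : X d → ℝ, Continuous V ∧ (∀ u, V (-u) = V u) ∧ (∃ C : ℝ, ∀ u, |V u| ≤ C * ga 2 u) ∧
    ∀ a, ∫ u : X d, V u * Real.cos ⟪u, a⟫ = g a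

theorem int_V {V : X d → ℝ} (hV : Continuous V) {C : ℝ} (hC : ∀ u, |V u| ≤ C * ga 2 u) {f : X d → ℝ}
    (hf : Continuous f) {C' : ℝ} {m : ℕ} (hC' : ∀ u, |f u| ≤ C' * (1 + ‖u‖) ^ m) :
    Integrable fun u : X d => V u * f u := by
  refine ((ga_integrable (d := d) (show (0 : ℝ) < 2 by norm_num) m).const_mul (C * C')).mono'
    (hV.mul hf).aestronglyMeasurable (Eventually.of_forall fun u => ?_)
  rw [Real.norm_eq_abs, abs_mul]
  calc |V u| * |f u| ≤ (C * ga 2 u) * (C' * (1 + ‖u‖) ^ m) :=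
        mul_le_mul (hC u) (hC' u) (abs_nonneg _) ((abs_nonneg _).trans (hC u))
    _ = _ := by ring

theorem Rep.zero : Rep (0 : X d → ℝ) :=
  ⟨0, continuous_zero, fun _ => rfl, ⟨0, fun u => by simp⟩, fun a => by simp⟩

theorem Rep.add {g g' : X d → ℝ} (h : Rep g) (h' : Rep g') : Rep (g + g') := by
  obtain ⟨V, hV, he, ⟨C, hC⟩, hi⟩ := h
  obtain ⟨V', hV', he', ⟨C', hC'⟩, hi'⟩ := h'
  refine ⟨V + V', hV.add hV', fun u => ?_, ⟨C + C', fun u => ?_⟩, fun a => ?_⟩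
  · simp only [Pi.add_apply, he u, he' u]
  · rw [Pi.add_apply, add_mul]
    exact (abs_add_le _ _).trans (add_le_add (hC u) (hC' u))
  · have hcc : Continuous fun u : X d => Real.cos ⟪u, a⟫ :=
      Real.continuous_cos.comp (continuous_id.inner continuous_const)
    have hcb : ∀ u : X d, |Real.cos ⟪u, a⟫| ≤ 1 * (1 + ‖u‖) ^ 0 := fun u => by
      simpa using Real.abs_cos_le_one _
    simp only [Pi.add_apply, add_mul]
    rw [integral_add (int_V hV hC hcc hcb) (int_V hV' hC' hcc hcb), hi, hi']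

theorem Rep.smul {g : X d → ℝ} (h : Rep g) (r : ℝ) : Rep (r • g) := by
  obtain ⟨V, hV, he, ⟨C, hC⟩, hi⟩ := h
  refine ⟨r • V, hV.const_smul r, fun u => ?_, ⟨|r| * C, fun u => ?_⟩, fun a => ?_⟩
  · simp only [Pi.smul_apply, he u]
  · rw [Pi.smul_apply, smul_eq_mul, abs_mul, mul_assoc]
    exact mul_le_mul_of_nonneg_left (hC u) (abs_nonneg _)
  · simp only [Pi.smul_apply, smul_eq_mul, mul_assoc]
    rw [integral_const_mul, hi]

theorem Rep.Tj (j : ℕ) : Rep (fun a : X d => Tj j 4 a) := by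
  obtain ⟨C, hC, hp⟩ := poly_ga d (2 * j) (show (2 : ℝ) < 4 by norm_num)
  refine ⟨fun u => ga 4 u * ‖u‖ ^ (2 * j), (ga_continuous 4).mul (continuous_norm.pow _), fun u => ?_,
    ⟨C, fun u => ?_⟩, fun a => ?_⟩
  · simp only [ga_neg, norm_neg]
  · rw [abs_of_nonneg (mul_nonneg (ga_nonneg _ _) (by positivity))]
    refine le_trans ?_ (hp u)
    rw [mul_comm]
    exact mul_le_mul_of_nonneg_right (pow_le_pow_left₀ (norm_nonneg _) (by linarith) _) (ga_nonneg _ _)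
  · unfold CGG.Tj
    refine integral_congr_ae (Eventually.of_forall fun u => ?_)
    simp only
    ring

theorem Rep.span {g : X d → ℝ}
    (h : g ∈ Submodule.span ℝ (Set.range fun (j : ℕ) (a : X d) => CGG.Tj j 4 a)) : Rep g := by
  induction h using Submodule.span_induction with
  | mem x hx =>
    obtain ⟨j, rfl⟩ := hx
    exact Rep.Tj j
  | zero => exact Rep.zero
  | add x y _ _ hx hy => exact hx.add hy
  | smul r x _ hx => exact hx.smul r

theorem mem_span (d k : ℕ) : (fun a : X d => ‖a‖ ^ (2 * k) * Real.exp (-(‖a‖ ^ 2 / 16))) ∈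
    Submodule.span ℝ (Set.range fun (j : ℕ) (a : X d) => Tj j 4 a) := by
  induction k using Nat.strong_induction_on with
  | _ k ih =>
    obtain ⟨c, hc, -, hT⟩ := Tj_formula d k
    have h4 : (0 : ℝ) < 4 := by norm_num
    set D : ℕ → ℝ := fun i => c i * (4 : ℝ) ^ (-((d : ℝ) / 2 + k + i)) with hD
    have hDk : D k ≠ 0 := mul_ne_zero hc (Real.rpow_pos_of_pos h4 _).ne'
    have h1 : (fun a : X d => ‖a‖ ^ (2 * k) * Real.exp (-(‖a‖ ^ 2 / 16))) =
        (D k)⁻¹ • ((fun a : X d => Tj k 4 a) - ∑ i ∈ Finset.range k,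
          D i • fun a : X d => ‖a‖ ^ (2 * i) * Real.exp (-(‖a‖ ^ 2 / 16))) := by
      funext a
      simp only [Pi.smul_apply, Pi.sub_apply, Finset.sum_apply, smul_eq_mul]
      rw [hT 4 h4 a, Finset.sum_range_succ]
      have e1 : ∀ i : ℕ, c i * Fm ((d : ℝ) / 2 + k + i) i 4 a =
          D i * (‖a‖ ^ (2 * i) * Real.exp (-(‖a‖ ^ 2 / 16))) := by
        intro i
        unfold Fm
        rw [hD, show (4 : ℝ) * 4 = 16 by norm_num]
        ring
      simp only [e1]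
      rw [add_sub_cancel_left, inv_mul_cancel_left₀ hDk]
    rw [h1]
    refine Submodule.smul_mem _ _ (Submodule.sub_mem _ (Submodule.subset_span ⟨k, rfl⟩)
      (Submodule.sum_mem _ fun i hi => Submodule.smul_mem _ _ (ih i (Finset.mem_range.1 hi))))

/-- the sine integral from the cosine integral -/
theorem sin_of_cos {k : ℕ} {V : X d → ℝ} (hV : Continuous V) {C : ℝ} (hC : ∀ u, |V u| ≤ C * ga 2 u)
    (hi : ∀ a, ∫ u : X d, V u * Real.cos ⟪u, a⟫ = ‖a‖ ^ (2 * k) * Real.exp (-(‖a‖ ^ 2 / 16))) (a : X d) :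
    ∫ u : X d, V u * (⟪u, a⟫ * Real.sin ⟪u, a⟫) =
      (‖a‖ ^ 2 / 8 - 2 * k) * ‖a‖ ^ (2 * k) * Real.exp (-(‖a‖ ^ 2 / 16)) := by
  have hC0 : 0 ≤ C := by
    have := (abs_nonneg _).trans (hC 0)
    simpa [ga] using this
  set f : X d → ℝ := fun u => V u * Real.exp (1 * ‖u‖ ^ 2) with hf
  have hfg : ∀ u, ga 1 u * f u = V u := by
    intro u
    rw [hf]
    unfold ga
    simp only
    rw [mul_comm, mul_assoc, ← Real.exp_add, add_neg_cancel, Real.exp_zero, mul_one]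
  have hfc : Continuous f := hV.mul (Real.continuous_exp.comp (continuous_const.mul (continuous_norm.pow 2)))
  have hfb : ∀ u, |f u| ≤ C * (1 + ‖u‖) ^ 0 := by
    intro u
    rw [hf]
    simp only
    rw [abs_mul, Real.abs_exp, pow_zero, mul_one]
    calc |V u| * Real.exp (1 * ‖u‖ ^ 2) ≤ (C * ga 2 u) * Real.exp (1 * ‖u‖ ^ 2) :=
          mul_le_mul_of_nonneg_right (hC u) (Real.exp_pos _).le
      _ = C * Real.exp (-(1 * ‖u‖ ^ 2)) := by
          unfold ga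
          rw [mul_assoc, ← Real.exp_add]
          congr 2
          ring
      _ ≤ C * 1 := mul_le_mul_of_nonneg_left (Real.exp_le_one_iff.2 (by simp)) hC0
      _ = C := mul_one C
  have h1 := deriv_cos (d := d) one_pos hfc hfb a a
  have e1 : ∀ (g : X d → ℝ), (∫ u : X d, ga 1 u * (f u * g u)) = ∫ u : X d, V u * g u := by
    intro g
    refine integral_congr_ae (Eventually.of_forall fun u => ?_)
    simp only
    rw [← mul_assoc, hfg]
  have e2 : (fun s : ℝ => ∫ u : X d, ga 1 u * (f u * Real.cos ⟪u, a + s • a⟫)) =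
      fun s : ℝ => ‖a + s • a‖ ^ (2 * k) * Real.exp (-(‖a + s • a‖ ^ 2 / 16)) := by
    funext s
    rw [e1 (fun u => Real.cos ⟪u, a + s • a⟫), hi]
  rw [e2, e1 (fun u => ⟪u, a⟫ * Real.sin ⟪u, a⟫)] at h1
  have h2 : ∀ s : ℝ, ‖a + s • a‖ ^ 2 = (1 + s) ^ 2 * ‖a‖ ^ 2 := by
    intro s
    rw [show a + s • a = (1 + s) • a by rw [add_smul, one_smul], norm_smul, Real.norm_eq_abs, mul_pow, sq_abs]
  have h3 : (fun s : ℝ => ‖a + s • a‖ ^ (2 * k) * Real.exp (-(‖a + s • a‖ ^ 2 / 16))) =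
      fun s : ℝ => ((1 + s) ^ 2 * ‖a‖ ^ 2) ^ k * Real.exp (-((1 + s) ^ 2 * ‖a‖ ^ 2 / 16)) := by
    funext s
    rw [pow_mul, h2]
  rw [h3] at h1
  have h4 : HasDerivAt (fun s : ℝ => (1 + s) ^ 2 * ‖a‖ ^ 2) (2 * ‖a‖ ^ 2) 0 := by
    have h5 := (((hasDerivAt_id (0 : ℝ)).const_add 1).pow 2).mul_const (‖a‖ ^ 2)
    simpa using h5
  have h5 : HasDerivAt (fun s : ℝ => ((1 + s) ^ 2 * ‖a‖ ^ 2) ^ k * Real.exp (-((1 + s) ^ 2 * ‖a‖ ^ 2 / 16)))
      ((k : ℝ) * (‖a‖ ^ 2) ^ (k - 1) * (2 * ‖a‖ ^ 2) * Real.exp (-(‖a‖ ^ 2 / 16)) +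
        (‖a‖ ^ 2) ^ k * (Real.exp (-(‖a‖ ^ 2 / 16)) * (-(2 * ‖a‖ ^ 2 / 16)))) 0 := by
    have h6 := (h4.fun_pow k).fun_mul (((h4.div_const 16).fun_neg).exp)
    simpa using h6
  have h6 := h1.unique h5
  have h7 : (k : ℝ) * (‖a‖ ^ 2) ^ (k - 1) * (2 * ‖a‖ ^ 2) = 2 * k * (‖a‖ ^ 2) ^ k := by
    rcases Nat.eq_zero_or_pos k with h | h
    · subst h; simp
    · obtain ⟨l, rfl⟩ : ∃ l, k = l + 1 := ⟨k - 1, by omega⟩
      rw [Nat.add_sub_cancel, pow_succ]
      ring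
  rw [h7] at h6
  have h8 : ∫ u : X d, V u * (⟪u, a⟫ * Real.sin ⟪u, a⟫) = -(2 * k * (‖a‖ ^ 2) ^ k *
      Real.exp (-(‖a‖ ^ 2 / 16)) + (‖a‖ ^ 2) ^ k * (Real.exp (-(‖a‖ ^ 2 / 16)) *
      (-(2 * ‖a‖ ^ 2 / 16)))) := by rw [← h6, neg_neg]
  rw [h8, pow_mul]
  ring

/-- **The function `V0`.** -/
theorem exists_V0 (d k : ℕ) : ∃ V : X d → ℝ, Continuous V ∧ (∀ u, V (-u) = V u) ∧
    (∃ C : ℝ, ∀ u, |V u| ≤ C * ga 2 u) ∧
    (∀ a, ∫ u : X d, V u * Real.cos ⟪u, a⟫ = ‖a‖ ^ (2 * k) * Real.exp (-(‖a‖ ^ 2 / 16))) ∧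
    (∀ a, ∫ u : X d, V u * (⟪u, a⟫ * Real.sin ⟪u, a⟫) =
      (‖a‖ ^ 2 / 8 - 2 * k) * ‖a‖ ^ (2 * k) * Real.exp (-(‖a‖ ^ 2 / 16))) := by
  obtain ⟨V, hV, he, ⟨C, hC⟩, hi⟩ := Rep.span (mem_span d k)
  exact ⟨V, hV, he, ⟨C, hC⟩, hi, sin_of_cos hV hC hi⟩

end Pool.Agent.H53.CGG
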